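import Pool.Agent.R423.KB.Gauss3

/-!
# Lattice knots: Gaussian tails for the balance of free plaquettes and bumps, in every class

`fr w` is the number of free plaquettes of the polygon `w` (places where one edge can be replaced by
three edges around a unit square), `bu w` the number of its bumps (places where this can be undone),
`K Q n` is the set of the closed self-avoiding words of length `n` in the class `Q`, `a Q n` its
cardinality.
-/

set_option autoImplicit false

namespace Pool.Agent.Results.MP_aea6d5_co.GaussianBalance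

open Filter Topology KN Finset
open scoped Classical

/-- (1) For every class `Q` of polygons which is invariant under the local moves (every class of knot
types is, see (5)), every real `μ ≥ 1`, every `n ≥ 6` and `t ≥ 0`, the number of the `w` in `K Q n`
with `|bu w - fr w / μ²| ≥ t` is at most
`2 μ^n (∑_{k < 2 n + 2} a Q k / μ^k) exp (-t² / (896 (2 n + 1)))`.

(2) Let `Q` be a nonempty class of knot types, for instance one knot type, and `μ` its growth rate.
If the number of polygons is `μ^n` up to a power of `n`, at all large even `n`, then for some `c`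
and all large even `n` and all `t ≥ 0` the proportion of the `w` in `K Q n` with
`|bu w - fr w / μ²| ≥ t` is at most `n^c exp (-t² / (896 (2 n + 1)))`.

(3) The conclusion of (2) holds in particular if the number of polygons has the asymptotic form
`A n^(α - 3) μ^n` with `A > 0`.

(4) If `Q` is closed under connected sums, for instance the unknot, then without any hypothesis the
quotient of the mean of `fr` and the mean of `bu` at length `n` is
`μ² + O (√((log n + log (μ^n / p_n)) / n))`, for even `n`.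

(5) The classes of knot types are invariant; a single knot type is such a class, the unknot is
closed under connected sums and not empty. -/
theorem result :
    (∀ Q : List Dir → Prop, Inv Q → ∀ μ : ℝ, 1 ≤ μ → ∀ n : ℕ, 6 ≤ n → ∀ t : ℝ, 0 ≤ t →
      (((K Q n).filter (fun w => t ≤ |(bu w : ℝ) - fr w / μ ^ 2|)).card : ℝ) ≤
        2 * μ ^ n * (∑ k ∈ range (2 * n + 2), a Q k / μ ^ k) *
          Real.exp (-(t ^ 2 / (896 * (2 * n + 1))))) ∧
    (∀ Q : List Dir → Prop, KClass Q → (∃ w, SAP w ∧ Q w) →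
      ((∃ b : ℕ, ∀ᶠ j : ℕ in atTop, gr Q ^ (2 * j) ≤ (2 * j : ℝ) ^ b * pq Q (2 * j) ∧
          pq Q (2 * j) ≤ (2 * j : ℝ) ^ b * gr Q ^ (2 * j)) →
        ∃ c : ℕ, ∀ᶠ j : ℕ in atTop, ∀ t : ℝ, 0 ≤ t →
          (((K Q (2 * j)).filter (fun w => t ≤ |(bu w : ℝ) - fr w / gr Q ^ 2|)).card : ℝ) ≤
            (2 * j : ℝ) ^ c * a Q (2 * j) * Real.exp (-(t ^ 2 / (896 * (4 * j + 1))))) ∧
      (∀ A α : ℝ, 0 < A →
        Tendsto (fun j : ℕ => pq Q (2 * j) / ((2 * j : ℝ) ^ (α - 3) * gr Q ^ (2 * j))) atTop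
          (𝓝 A) →
        ∃ c : ℕ, ∀ᶠ j : ℕ in atTop, ∀ t : ℝ, 0 ≤ t →
          (((K Q (2 * j)).filter (fun w => t ≤ |(bu w : ℝ) - fr w / gr Q ^ 2|)).card : ℝ) ≤
            (2 * j : ℝ) ^ c * a Q (2 * j) * Real.exp (-(t ^ 2 / (896 * (4 * j + 1))))) ∧
      (CSum Q → ∃ C : ℝ, ∀ᶠ j : ℕ in atTop,
        |(∑ w ∈ K Q (2 * j), (fr w : ℝ)) / (∑ w ∈ K Q (2 * j), (bu w : ℝ)) - gr Q ^ 2| ≤
          C * Real.sqrt ((Real.log (2 * j) + Real.log (gr Q ^ (2 * j) / pq Q (2 * j))) /
            (2 * j)))) ∧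
    (∀ Q : List Dir → Prop, KClass Q → Inv Q) ∧ (∀ k : List V, KClass (KT k)) ∧
      KClass U ∧ CSum U ∧ ∃ w, SAP w ∧ U w := by
  refine ⟨fun Q hQ μ hμ n hn t ht => ?_, fun Q hQ hne => ⟨fun ⟨b, hb⟩ => ?_, fun A α hA h => ?_,
    fun hc => ?_⟩, fun Q hQ => GEN.inv_of Q hQ, GEN.kt_class, GEN.kt_class sq, GEN.u_csum,
    ⟨sqw, c_sq.2.1, Or.inl (Same.refl _)⟩⟩
  · have h := KB.two_sides hQ hμ hn ht
    have e : ∑ k ∈ range (2 * n + 2), μ⁻¹ ^ k * (a Q k : ℝ) =
        ∑ k ∈ range (2 * n + 2), a Q k / μ ^ k := by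
      apply sum_congr rfl
      intro k _
      rw [inv_pow, mul_comm, div_eq_mul_inv]
    rw [e] at h
    exact h
  · exact KB.poly_gauss hQ hne b hb
  · obtain ⟨b, hb⟩ := KB.of_form hQ hne hA h
    exact KB.poly_gauss hQ hne b hb
  · exact KB.csum_mean_rate hQ hne hc

end Pool.Agent.Results.MP_aea6d5_co.GaussianBalance
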