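import Pool.Agent.R259.KG.Fin

/-!
# Balance of all local contexts in a fixed knot type (MP_aea6d5_co, partial)

A bump can be added at a free plaquette `(i, d)` of a polygon and removed at a bump. A rule `P` of
radius `r` is any property of the `r` letters before and after the place, the direction of the
edge and the direction of the bump. `fm r P w` and `bn r P w` are the numbers of free plaquettes
and of bumps of `w` obeying the rule. In all but exponentially few polygons of a given knot type
these numbers balance with weight `gr Q ^ 2`, for all rules of radius `r` at the same time.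
-/

set_option autoImplicit false

namespace Pool.Agent.Results.MP_aea6d5_co.GibbsProperty

open Filter Topology KN Pool.Agent.R259.KG
open scoped Classical

/-- Balance of the local contexts. `K Q n` is the set of the closed self-avoiding words of length
`n` with the property `Q` (polygons with a starting point and an orientation).

* For every class `Q` of knot types (in particular for a single knot type, see the third part),
  every radius `r` and every `ε > 0` the number of `w` in `K Q n` such that
  `|fm r P w - gr Q ^ 2 * bn r P w| ≥ ε n` for some rule `P` of radius `r` is exponentially smaller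
  than `gr Q ^ n`.
* If the class is closed under connected sums (for instance the unknots) then, for every rule, the
  number of words with `|fm r P w - gr Q ^ 2 * bn r P w| ≥ t` is at most
  `300 n (gr Q) ^ n exp (- t ^ 2 / (10 ^ 6 (r + 1) n))`, and the words of the first part are an
  exponentially small proportion of all words of `K Q n`.
* The classes to which this applies.
* For the trivial rule one gets the numbers of all free plaquettes and of all bumps; an added bump
  has the context of the free plaquette where it is added. -/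
theorem result :
    (∀ Q : List Dir → Prop, KClass Q → (∃ w, SAP w ∧ Q w) → ∀ r : ℕ, ∀ ε : ℝ, 0 < ε →
      ∃ θ C : ℝ, 0 < θ ∧ θ < 1 ∧ ∀ n : ℕ,
        (((K Q n).filter (fun w => ∃ P : Rule,
          ε * n ≤ |(fm r P w : ℝ) - gr Q ^ 2 * bn r P w|)).card : ℝ) ≤ C * (θ * gr Q) ^ n) ∧
    (∀ Q : List Dir → Prop, KClass Q → (∃ w, SAP w ∧ Q w) → CSum Q → ∀ r : ℕ,
      (∀ P : Rule, ∀ n : ℕ, 1 ≤ n → ∀ t : ℝ, 0 ≤ t →
        (((K Q n).filter (fun w => t ≤ |(fm r P w : ℝ) - gr Q ^ 2 * bn r P w|)).card : ℝ) ≤
          300 * n * gr Q ^ n * Real.exp (-(t ^ 2 / (10 ^ 6 * ((r : ℝ) + 1) * n)))) ∧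
      ∀ ε : ℝ, 0 < ε → ∃ θ : ℝ, 0 < θ ∧ θ < 1 ∧ ∀ᶠ j : ℕ in atTop, 0 < a Q (2 * j) ∧
        (((K Q (2 * j)).filter (fun w => ∃ P : Rule,
          ε * ((2 * j : ℕ) : ℝ) ≤ |(fm r P w : ℝ) - gr Q ^ 2 * bn r P w|)).card : ℝ) ≤
          θ ^ (2 * j) * a Q (2 * j)) ∧
    ((∀ k : List V, KClass (KT k)) ∧ CSum U ∧ ∃ w, SAP w ∧ U w) ∧
    ((∀ (r : ℕ) (w : List Dir), fm r (fun _ _ _ _ => True) w = fr w ∧
        bn r (fun _ _ _ _ => True) w = bu w) ∧
      ∀ (r : ℕ) (P : Rule) (w : List Dir) (i : ℕ) (d : Dir), i < w.length →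
        (bm r P (ins w i d) i ↔ sm r P w i d)) := by
  refine ⟨fun Q hQ hne r ε hε => ?_, fun Q hQ hne hc r => ⟨fun P n hn t ht => ?_,
    fun ε hε => proportion r Q hQ hne hc ε hε⟩,
    ⟨GEN.kt_class, GEN.u_csum, ⟨sqw, c_sq.2.1, Or.inl (Same.refl _)⟩⟩,
    ⟨fun r w => ⟨true_fm r w, true_bn r w⟩, fun r P w i d hi => mark_ins r P w i d hi⟩⟩
  · obtain ⟨θ, C, h1, h2, -, h3⟩ := simult r Q hQ hne ε hε
    exact ⟨θ, C, h1, h2, h3⟩
  · obtain ⟨h1, -, h2⟩ := gr_bounds Q hQ hne
    exact gauss r P Q (GEN.inv_of Q hQ) (gr Q) (by linarith) h2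
      (Pool.Agent.R259.KL.upN Q hQ hne hc) n hn t ht

end Pool.Agent.Results.MP_aea6d5_co.GibbsProperty
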