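import Pool.Agent.R93.KnotMean2

/-!
# The asymptotic form of the number of lattice knots in the mean over short windows of lengths
-/

set_option autoImplicit false

namespace Pool.Agent.Results.MP_aea6d5_co.MeanLengths

open Filter Topology KN

/-- the count at the length `2 n`, divided by `(2 n) ^ (α - 3) * gr Q ^ (2 n)` -/
noncomputable def R (Q : List Dir → Prop) (α : ℝ) (n : ℕ) : ℝ :=
  pq Q (2 * n) / ((2 * n : ℝ) ^ (α - 3) * gr Q ^ (2 * n))

/-- the mean of `u` over the integers of `[n, n + δ √n]` -/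
noncomputable def mean (u : ℕ → ℝ) (δ : ℝ) (n : ℕ) : ℝ :=
  (∑ j ∈ Finset.range (⌊δ * √(n : ℝ)⌋₊ + 1), u (n + j)) / ((⌊δ * √(n : ℝ)⌋₊ : ℝ) + 1)

/-- Let `Q` be a class of knot types (for instance one knot type).

* If for each `δ > 0` the mean of `R Q α` over `[n, n + δ √n]` tends to `A > 0`, then the
  asymptotic form with the constants `A` and `α` holds.
* If for one `δ > 0` these means are between two positive constants for all large `n`, then
  `R Q α n` is between two positive constants for all large `n`.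
* If the asymptotic form holds with some `A > 0` and `α`, then the ratios of consecutive counts
  tend to `gr Q ^ 2` with error `o(1 / √n)`.
* If only the exponent exists, that is, `log (pq Q (2 n) / gr Q ^ (2 n)) / log (2 n)` converges,
  then the error is `o(√(log n / n))`. -/
theorem result (Q : List Dir → Prop) (hQ : KClass Q) (hne : ∃ w, SAP w ∧ Q w) :
    (∀ A α : ℝ, 0 < A → (∀ δ : ℝ, 0 < δ → Tendsto (mean (R Q α) δ) atTop (𝓝 A)) →
      Tendsto (R Q α) atTop (𝓝 A)) ∧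
    (∀ δ α c₁ c₂ : ℝ, 0 < δ → 0 < c₁ →
      (∀ᶠ n : ℕ in atTop, c₁ ≤ mean (R Q α) δ n ∧ mean (R Q α) δ n ≤ c₂) →
      ∃ c₃ c₄ : ℝ, 0 < c₃ ∧ 0 < c₄ ∧ ∀ᶠ n : ℕ in atTop, c₃ ≤ R Q α n ∧ R Q α n ≤ c₄) ∧
    (∀ A α : ℝ, 0 < A → Tendsto (R Q α) atTop (𝓝 A) →
      Tendsto (fun n : ℕ => (pq Q (2 * n + 2) / pq Q (2 * n) - gr Q ^ 2) * √(n : ℝ)) atTop
        (𝓝 0)) ∧
    (∀ β : ℝ, Tendsto (fun n : ℕ => Real.log (pq Q (2 * n) / gr Q ^ (2 * n)) / Real.log (2 * n))
        atTop (𝓝 β) →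
      Tendsto (fun n : ℕ => (pq Q (2 * n + 2) / pq Q (2 * n) - gr Q ^ 2) *
        √((n : ℝ) / Real.log n)) atTop (𝓝 0)) ∧
    ∀ k : List V, KClass (KT k) :=
  ⟨fun A α hA h => Pool.Agent.R93.KM.form (β := α - 3) hQ hne hA h,
    fun δ α c₁ c₂ hδ hc h => Pool.Agent.R93.KM.bounds (β := α - 3) hQ hne hδ hc h,
    fun A α hA h => Pool.Agent.R93.KM.ratio_form (β := α - 3) hQ hne hA h,
    fun β h => Pool.Agent.R93.KM.ratio_expo hQ hne h, GEN.kt_class⟩

end Pool.Agent.Results.MP_aea6d5_co.MeanLengths
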