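import Pool.Agent.R945.KR.Kn

/-!
# Lattice knots: a rate in the ratio limit theorem
-/

set_option autoImplicit false

namespace Pool.Agent.Results.MP_aea6d5_co.RatioRate

open Filter Topology KN

/-- Let `Q` be a class of knot types (for instance one knot type), `p_n` the number of polygons of
length `n` in `ℤ³` whose knot type is in `Q`, and `μ` their growth rate.

(1) If `Q` is closed under connected sums (for instance the unknot) then `p_n ≤ 16 μ^n` and
`|p_{n+2} / (μ² p_n) - 1| ≤ K √((4 + log (μ^n / p_n)) / n)` for all large even `n = 2 k`.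

(2) If `Q` is any class of knot types and `p_n` has the asymptotic form `A n^(α-3) μ^n`, `A > 0`,
along the even lengths, then `(p_{n+2} / (μ² p_n) - 1) √n → 0` along them.

(3) If `Q` is any class of knot types and `log (p_n / μ^n) / log n` converges along the even lengths,
then `(p_{n+2} / (μ² p_n) - 1) √(n / log n) → 0` along them. -/
theorem result :
    (∀ Q : List Dir → Prop, KClass Q → (∃ w, SAP w ∧ Q w) →
      (CSum Q → ((∀ᶠ k : ℕ in atTop, pq Q (2 * k) ≤ 16 * gr Q ^ (2 * k)) ∧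
        ∃ K : ℝ, ∀ᶠ k : ℕ in atTop, |pq Q (2 * k + 2) / (gr Q ^ 2 * pq Q (2 * k)) - 1| ≤
          K * Real.sqrt ((4 + Real.log (gr Q ^ (2 * k) / pq Q (2 * k))) / (2 * k)))) ∧
      (∀ A α : ℝ, 0 < A →
        Tendsto (fun k : ℕ => pq Q (2 * k) / ((2 * k : ℝ) ^ (α - 3) * gr Q ^ (2 * k))) atTop
          (𝓝 A) →
        Tendsto (fun k : ℕ => (pq Q (2 * k + 2) / (gr Q ^ 2 * pq Q (2 * k)) - 1) *
          Real.sqrt (2 * k)) atTop (𝓝 0)) ∧
      (∀ β : ℝ,
        Tendsto (fun k : ℕ => Real.log (pq Q (2 * k) / gr Q ^ (2 * k)) / Real.log (2 * k)) atTop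
          (𝓝 β) →
        Tendsto (fun k : ℕ => (pq Q (2 * k + 2) / (gr Q ^ 2 * pq Q (2 * k)) - 1) *
          Real.sqrt (2 * k / Real.log (2 * k))) atTop (𝓝 0))) ∧
    (∀ k : List V, KClass (KT k)) ∧ KClass U ∧ CSum U ∧ ∃ w, SAP w ∧ U w := by
  refine ⟨fun Q hQ hne => ⟨fun hc => ⟨?_, ?_⟩, fun A α hA h => ?_, fun β h => ?_⟩,
    GEN.kt_class, GEN.kt_class sq, GEN.u_csum, ⟨sqw, c_sq.2.1, Or.inl (Same.refl _)⟩⟩
  · obtain ⟨h1, -, -⟩ := gr_bounds Q hQ hne
    have hμ : 0 < gr Q := by linarith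
    filter_upwards [Pool.Agent.R945.KR.ub_csum Q hQ hne hc] with k hk
    have h2 : 0 < gr Q ^ (2 * k) := pow_pos hμ _
    unfold TH966.KS.yq at hk
    rwa [div_le_iff₀ h2] at hk
  · obtain ⟨K, hK⟩ := Pool.Agent.R945.KR.rate_csum Q hQ hne hc
    refine ⟨|K| * Real.sqrt 2, ?_⟩
    filter_upwards [hK] with k hk
    refine hk.trans ?_
    have e : (4 + Real.log (gr Q ^ (2 * k) / pq Q (2 * k))) / (k : ℝ) =
        2 * ((4 + Real.log (gr Q ^ (2 * k) / pq Q (2 * k))) / (2 * k)) := by
      rcases eq_or_ne (k : ℝ) 0 with h | h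
      · rw [h]; simp
      · field_simp
    rw [e, Real.sqrt_mul (by norm_num), mul_assoc]
    exact mul_le_mul_of_nonneg_right (le_abs_self K) (by positivity)
  · have h1 := (Pool.Agent.R945.KR.of_form Q hQ hne hA h).const_mul (Real.sqrt 2)
    rw [mul_zero] at h1
    refine h1.congr fun k => ?_
    rw [Real.sqrt_mul (by norm_num)]
    ring
  · have h1 := (Pool.Agent.R945.KR.of_expo Q hQ hne h).const_mul (Real.sqrt 2)
    rw [mul_zero] at h1
    have h2 := h1.norm
    rw [norm_zero] at h2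
    refine squeeze_zero_norm' ?_ h2
    filter_upwards [eventually_ge_atTop 3] with k hk
    have hl := Pool.Agent.R956.K1.log_scale hk
    have hk0 : (0 : ℝ) < k := by exact_mod_cast (show 0 < k by omega)
    have hl2 : Real.log (k : ℝ) ≤ Real.log (2 * k) := Real.log_le_log hk0 (by linarith)
    have e : Real.sqrt (2 * k / Real.log (2 * k)) ≤ Real.sqrt 2 * Real.sqrt (k / Real.log k) := by
      rw [← Real.sqrt_mul (by norm_num), mul_div_assoc]
      apply Real.sqrt_le_sqrt
      have : (k : ℝ) / Real.log (2 * k) ≤ k / Real.log k :=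
        div_le_div_of_nonneg_left hk0.le (by linarith) hl2
      linarith
    rw [norm_mul, Real.norm_of_nonneg (Real.sqrt_nonneg _), Real.norm_eq_abs, Real.norm_eq_abs]
    calc |pq Q (2 * k + 2) / (gr Q ^ 2 * pq Q (2 * k)) - 1| * Real.sqrt (2 * k / Real.log (2 * k))
        ≤ |pq Q (2 * k + 2) / (gr Q ^ 2 * pq Q (2 * k)) - 1| *
          (Real.sqrt 2 * Real.sqrt (k / Real.log k)) := by gcongr
      _ = _ := by
        rw [abs_mul, abs_mul, abs_of_nonneg (Real.sqrt_nonneg (2 : ℝ)),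
          abs_of_nonneg (Real.sqrt_nonneg ((k : ℝ) / Real.log k))]
        ring

end Pool.Agent.Results.MP_aea6d5_co.RatioRate
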